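import Pool.Agent.H.MP_46c13c_an.A

set_option autoImplicit false

namespace Pool.Agent.Results.MP_46c13c_an.No
open Set Filter Topology MeasureTheory Asymptotics
open scoped ENNReal

/-- `{r < 0}` is a bounded convex domain with smooth defining function `r` -/
def Dom (r : ℂ × ℂ → ℝ) : Prop :=
  ContDiff ℝ (⊤ : ℕ∞) r ∧ ConvexOn ℝ univ r ∧ (∃ x, r x < 0) ∧
    Bornology.IsBounded {x | r x < 0} ∧ ∀ x, r x = 0 → fderiv ℝ r x ≠ 0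

/-- order of vanishing at `0` -/
noncomputable def ord {F : Type} [NormedAddCommGroup F] (f : ℂ → F) : ℝ≥0∞ :=
  ⨆ (m : ℕ) (_ : f =O[𝓝 0] fun ζ => ‖ζ‖ ^ m), (m : ℝ≥0∞)

/-- D'Angelo type at the point `p` -/
noncomputable def dType (r : ℂ × ℂ → ℝ) (p : ℂ × ℂ) : ℝ≥0∞ :=
  ⨆ (γ : ℂ → ℂ × ℂ) (_ : AnalyticAt ℂ γ 0 ∧ γ 0 = p ∧ ¬ ∀ᶠ ζ in 𝓝 0, γ ζ = p),
    ord (r ∘ γ) / ord fun ζ => γ ζ - p

/-- `L²` norm on `Ω` -/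
noncomputable def N (Ω : Set (ℂ × ℂ)) (f : ℂ × ℂ → ℂ) : ℝ≥0∞ := eLpNorm f 2 (volume.restrict Ω)

/-- the restriction map of Bergman spaces is not compact -/
def NonCompact (Ω₁ Ω₂ : Set (ℂ × ℂ)) : Prop :=
  ∃ (f : ℕ → ℂ × ℂ → ℂ) (C : ℝ≥0∞), C < ⊤ ∧
    (∀ j, DifferentiableOn ℂ (f j) Ω₁ ∧ N Ω₁ (f j) ≤ C) ∧
    ∀ φ : ℕ → ℕ, StrictMono φ → ∀ g, MemLp g 2 (volume.restrict Ω₂) →
      ¬ Tendsto (fun j => N Ω₂ (f (φ j) - g)) atTop (𝓝 0)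

theorem result : ∃ (r₁ r₂ : ℂ × ℂ → ℝ) (p : ℂ × ℂ), Dom r₁ ∧ Dom r₂ ∧
    {x | r₂ x < 0} ⊆ {x | r₁ x < 0} ∧
    frontier {x | r₁ x < 0} ∩ frontier {x | r₂ x < 0} = {p} ∧
    NonCompact {x | r₁ x < 0} {x | r₂ x < 0} ∧ dType r₂ p ≤ 4 ∧ 6 ≤ dType r₁ p := by
  open Pool.Agent.H.MP_46c13c_an in
  have n2 := neg2 (s := 1 / 4) (by norm_num) (by norm_num)
  open Pool.Agent.H.MP_46c13c_an in
  have n1 := (r12 _).trans_lt n2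
  open Pool.Agent.H.MP_46c13c_an in
  refine ⟨r1, r2, 0, ⟨s1, c1, ⟨_, n1⟩, bd, grad s1 c1 n1⟩,
    ⟨s2, c2, ⟨_, n2⟩, bd.subset fun x hx => (r12 x).trans_lt hx, grad s2 c2 n2⟩,
    fun x hx => (r12 x).trans_lt hx, fr, nc, iSup₂_le fun γ h => ?_, ?_⟩
  · obtain ⟨n, h1, h2⟩ := Pool.Agent.H.MP_46c13c_an.ord2 h.1 h.2.1 h.2.2
    refine ENNReal.div_le_of_le_mul (iSup₂_le fun m hm => ?_)
    have a : (n : ℝ≥0∞) ≤ ord fun ζ => γ ζ - 0 :=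
      le_iSup₂_of_le (f := fun (m : ℕ) (_ : (fun ζ => γ ζ - 0) =O[𝓝 0] fun ζ => ‖ζ‖ ^ m) =>
        (m : ℝ≥0∞)) n (by simpa using h1) le_rfl
    exact le_trans (by exact_mod_cast h2 m hm) (mul_le_mul_right a 4)
  · refine le_iSup₂_of_le (fun ζ : ℂ => ((0 : ℂ), ζ)) ⟨by fun_prop, rfl, fun h => ?_⟩ ?_
    · obtain ⟨z, z1, z2⟩ := ((h.filter_mono nhdsWithin_le_nhds).and
        (self_mem_nhdsWithin (s := {0}ᶜ))).exists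
      exact z2 (congrArg Prod.snd z1)
    · have a : ((6 : ℕ) : ℝ≥0∞) ≤ ord (Pool.Agent.H.MP_46c13c_an.r1 ∘ fun ζ : ℂ => ((0 : ℂ), ζ)) :=
        le_iSup₂_of_le (f := fun (m : ℕ) (_ : _ =O[𝓝 0] fun ζ : ℂ => ‖ζ‖ ^ m) =>
          (m : ℝ≥0∞)) 6 Pool.Agent.H.MP_46c13c_an.ord1 le_rfl
      have b : ord (fun ζ : ℂ => ((0 : ℂ), ζ) - 0) ≤ 1 := iSup₂_le fun m hm => by
        exact_mod_cast Pool.Agent.H.MP_46c13c_an.ord1' (by simpa using hm)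
      exact le_trans (by simp) (ENNReal.div_le_div a b)

end Pool.Agent.Results.MP_46c13c_an.No
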